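import Mathlib

/-!
# Projective planes with an abelian collineation group of type (f): the geometry

`TypeF P L G` records the data of the frozen statement S10599.  For base elements `p₀` (a point
off `l₀`, `l₁`) and `m₀` (a line avoiding `a`, `b`) we get

* `A` = stabiliser of the line `a p₀` (order `n`), `B` = stabiliser of the line `b p₀`
  (order `n - 1`), `D = {g | φ g p₀ ∈ m₀}`;
* the difference set property of `D` (`exists_unique_quot`, `no_quot_A`, `no_quot_B`);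
* all incidences expressed in terms of `A`, `B`, `D`;
* `exists_iso`: if `G ≃ K⁺ × Kˣ` carries `D` to `{(x, x)}` then the plane is `PG(2, K)`.
-/

namespace Pool.H72.TypeF

open Configuration Configuration.ProjectivePlane

/-- The data of a type (f) collineation group. -/
structure TypeF (P L G : Type) [Fintype P] [Fintype L] [Membership P L]
    [Configuration.ProjectivePlane P L] [CommGroup G] [Fintype G] where
  φ : G →* Equiv.Perm P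
  ψ : G →* Equiv.Perm L
  a : P
  b : P
  l₀ : L
  l₁ : L
  inc : ∀ (g : G) (p : P) (l : L), p ∈ l ↔ (φ g) p ∈ (ψ g) l
  hab : a ≠ b
  ha0 : a ∈ l₀
  hb0 : b ∈ l₀
  ha1 : a ∈ l₁
  hl : l₁ ≠ l₀
  fix : ∀ g : G, (φ g) a = a ∧ (φ g) b = b ∧ (ψ g) l₀ = l₀ ∧ (ψ g) l₁ = l₁
  card : Fintype.card G = Configuration.ProjectivePlane.order P L *
      (Configuration.ProjectivePlane.order P L - 1)
  regP : ∀ p q : P, p ∉ l₀ → p ∉ l₁ → q ∉ l₀ → q ∉ l₁ → ∃! g : G, (φ g) p = q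
  regL : ∀ l m : L, a ∉ l → b ∉ l → a ∉ m → b ∉ m → ∃! g : G, (ψ g) l = m

variable {P L G : Type} [Fintype P] [Fintype L] [Membership P L]
    [Configuration.ProjectivePlane P L] [CommGroup G] [Fintype G]

/-- Two distinct points lie on at most one line. -/
theorem line_eq {p q : P} {l m : L} (hpq : p ≠ q) (h1 : p ∈ l) (h2 : q ∈ l) (h3 : p ∈ m)
    (h4 : q ∈ m) : l = m :=
  (Nondegenerate.eq_or_eq h1 h2 h3 h4).resolve_left hpq

/-- Two distinct lines meet in at most one point. -/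
theorem point_eq {p q : P} {l m : L} (hlm : l ≠ m) (h1 : p ∈ l) (h2 : q ∈ l) (h3 : p ∈ m)
    (h4 : q ∈ m) : p = q :=
  (Nondegenerate.eq_or_eq h1 h2 h3 h4).resolve_right hlm

theorem exists_line (p q : P) : ∃ l : L, p ∈ l ∧ q ∈ l := by
  by_cases h : p = q
  · subst h
    obtain ⟨r, hr⟩ : ∃ r : P, r ≠ p := by
      have := card_points P L
      have h1 := one_lt_order P L
      have h2 : 1 < Fintype.card P := by rw [this]; nlinarith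
      exact Fintype.exists_ne_of_one_lt_card h2 p
    exact ⟨HasLines.mkLine hr.symm, (HasLines.mkLine_ax hr.symm).1,
      (HasLines.mkLine_ax hr.symm).1⟩
  · exact ⟨HasLines.mkLine h, HasLines.mkLine_ax h⟩

theorem exists_point' {l m : L} (h : l ≠ m) : ∃ p : P, p ∈ l ∧ p ∈ m :=
  ⟨HasPoints.mkPoint h, HasPoints.mkPoint_ax h⟩

/-- A line has a point different from two given points. -/
theorem exists_third (l : L) (p q : P) : ∃ r : P, r ∈ l ∧ r ≠ p ∧ r ≠ q := by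
  classical
  by_contra hcon
  push Not at hcon
  have h1 := two_lt_pointCount P l
  unfold pointCount at h1
  have h2 : Nat.card {r : P // r ∈ l} ≤ 2 := by
    rw [Nat.card_eq_fintype_card]
    refine le_trans (Fintype.card_le_of_injective (β := Bool)
      (fun r => decide ((r : P) = p)) ?_) (by simp)
    intro r s hrs
    apply Subtype.ext
    simp only [decide_eq_decide] at hrs
    by_cases hr : (r : P) = p
    · rw [hr, hrs.mp hr]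
    · have h3 : (s : P) ≠ p := fun h => hr (hrs.mpr h)
      rw [hcon r r.2 hr, hcon s s.2 h3]
  omega

namespace TypeF

variable (S : TypeF P L G)

theorem b_notMem : S.b ∉ S.l₁ := fun h =>
  S.hl (line_eq S.hab S.ha1 h S.ha0 S.hb0)

theorem mem_l₀_iff (g : G) (p : P) : (S.φ g) p ∈ S.l₀ ↔ p ∈ S.l₀ := by
  have := S.inc g p S.l₀
  rw [(S.fix g).2.2.1] at this
  exact this.symm

theorem mem_l₁_iff (g : G) (p : P) : (S.φ g) p ∈ S.l₁ ↔ p ∈ S.l₁ := by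
  have := S.inc g p S.l₁
  rw [(S.fix g).2.2.2] at this
  exact this.symm

theorem a_mem_iff (g : G) (l : L) : S.a ∈ (S.ψ g) l ↔ S.a ∈ l := by
  have := S.inc g S.a l
  rw [(S.fix g).1] at this
  exact this.symm

theorem b_mem_iff (g : G) (l : L) : S.b ∈ (S.ψ g) l ↔ S.b ∈ l := by
  have := S.inc g S.b l
  rw [(S.fix g).2.1] at this
  exact this.symm

/-- Moving the group element to the point. -/
theorem inc' (g h : G) (p : P) (l : L) :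
    (S.φ g) p ∈ (S.ψ h) l ↔ (S.φ (g * h⁻¹)) p ∈ l := by
  rw [S.inc h ((S.φ (g * h⁻¹)) p) l, ← Equiv.Perm.mul_apply, ← map_mul]
  have : h * (g * h⁻¹) = g := by rw [mul_comm g, mul_inv_cancel_left]
  rw [this]

theorem eq_a_of_mem {p : P} (h0 : p ∈ S.l₀) (h1 : p ∈ S.l₁) : p = S.a :=
  point_eq S.hl h1 S.ha1 h0 S.ha0

/-- A line through `a` different from `l₀` meets `l₀` only in `a`. -/
theorem notMem_l₀ {p : P} {l : L} (ha : S.a ∈ l) (hl : l ≠ S.l₀) (hp : p ∈ l) (hpa : p ≠ S.a) :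
    p ∉ S.l₀ := fun h => hpa (point_eq hl hp ha h S.ha0)

theorem notMem_l₁ {p : P} {l : L} (ha : S.a ∈ l) (hl : l ≠ S.l₁) (hp : p ∈ l) (hpa : p ≠ S.a) :
    p ∉ S.l₁ := fun h => hpa (point_eq hl hp ha h S.ha1)

theorem notMem_l₀' {p : P} {l : L} (hb : S.b ∈ l) (hl : l ≠ S.l₀) (hp : p ∈ l) (hpb : p ≠ S.b) :
    p ∉ S.l₀ := fun h => hpb (point_eq hl hp hb h S.hb0)

/-- There is a line avoiding `a` and `b`. -/
theorem exists_m₀ : ∃ m : L, S.a ∉ m ∧ S.b ∉ m := by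
  obtain ⟨c, hc, hca, hcb⟩ := exists_third S.l₀ S.a S.b
  obtain ⟨d, hd, hda, _⟩ := exists_third S.l₁ S.a S.a
  obtain ⟨m, hm1, hm2⟩ := exists_line (L := L) c d
  have hne : m ≠ S.l₀ := by
    rintro rfl
    exact hda (S.eq_a_of_mem hm2 hd)
  exact ⟨m, fun h => hne (line_eq hca.symm h hm1 S.ha0 hc),
    fun h => hne (line_eq hcb.symm h hm1 S.hb0 hc)⟩

/-- There is a point off `l₀` and `l₁`. -/
theorem exists_p₀ : ∃ p : P, p ∉ S.l₀ ∧ p ∉ S.l₁ := by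
  obtain ⟨m, hm1, hm2⟩ := S.exists_m₀
  have h0 : m ≠ S.l₀ := by rintro rfl; exact hm1 S.ha0
  have h1 : m ≠ S.l₁ := by rintro rfl; exact hm1 S.ha1
  obtain ⟨c, hc, hc0⟩ := exists_point' h0
  obtain ⟨d, hd, hd1⟩ := exists_point' h1
  obtain ⟨p, hp, hpc, hpd⟩ := exists_third m c d
  exact ⟨p, fun h => hpc (point_eq h0 hp hc h hc0), fun h => hpd (point_eq h1 hp hd h hd1)⟩

end TypeF

/-- Base elements. -/
structure Base (S : TypeF P L G) where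
  p₀ : P
  m₀ : L
  hp0 : p₀ ∉ S.l₀
  hp1 : p₀ ∉ S.l₁
  hma : S.a ∉ m₀
  hmb : S.b ∉ m₀

namespace Base

variable {S : TypeF P L G} (β : Base S)

theorem p₀_ne_a : β.p₀ ≠ S.a := fun h => β.hp0 (h ▸ S.ha0)
theorem p₀_ne_b : β.p₀ ≠ S.b := fun h => β.hp0 (h ▸ S.hb0)
theorem m₀_ne_l₀ : β.m₀ ≠ S.l₀ := fun h => β.hma (h ▸ S.ha0)
theorem m₀_ne_l₁ : β.m₀ ≠ S.l₁ := fun h => β.hma (h ▸ S.ha1)

/-- The point of `m₀` on `l₀`. -/
noncomputable def c₀ : P := HasPoints.mkPoint (P := P) (β.m₀_ne_l₀)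
/-- The point of `m₀` on `l₁`. -/
noncomputable def d₀ : P := HasPoints.mkPoint (P := P) (β.m₀_ne_l₁)

theorem c₀_mem_m₀ : β.c₀ ∈ β.m₀ := (HasPoints.mkPoint_ax β.m₀_ne_l₀).1
theorem c₀_mem_l₀ : β.c₀ ∈ S.l₀ := (HasPoints.mkPoint_ax β.m₀_ne_l₀).2
theorem d₀_mem_m₀ : β.d₀ ∈ β.m₀ := (HasPoints.mkPoint_ax β.m₀_ne_l₁).1
theorem d₀_mem_l₁ : β.d₀ ∈ S.l₁ := (HasPoints.mkPoint_ax β.m₀_ne_l₁).2
theorem c₀_ne_a : β.c₀ ≠ S.a := fun h => β.hma (h ▸ β.c₀_mem_m₀)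
theorem c₀_ne_b : β.c₀ ≠ S.b := fun h => β.hmb (h ▸ β.c₀_mem_m₀)
theorem d₀_ne_a : β.d₀ ≠ S.a := fun h => β.hma (h ▸ β.d₀_mem_m₀)
theorem d₀_ne_b : β.d₀ ≠ S.b := fun h => β.hmb (h ▸ β.d₀_mem_m₀)

/-- The line through `a` and `p₀`. -/
noncomputable def s₀ : L := HasLines.mkLine (L := L) (β.p₀_ne_a)
/-- The line through `b` and `p₀`. -/
noncomputable def r₁ : L := HasLines.mkLine (L := L) (β.p₀_ne_b)
/-- The line through `b` and `d₀`. -/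
noncomputable def r₀ : L := HasLines.mkLine (L := L) (β.d₀_ne_b)

theorem p₀_mem_s₀ : β.p₀ ∈ β.s₀ := (HasLines.mkLine_ax β.p₀_ne_a).1
theorem a_mem_s₀ : S.a ∈ β.s₀ := (HasLines.mkLine_ax β.p₀_ne_a).2
theorem p₀_mem_r₁ : β.p₀ ∈ β.r₁ := (HasLines.mkLine_ax β.p₀_ne_b).1
theorem b_mem_r₁ : S.b ∈ β.r₁ := (HasLines.mkLine_ax β.p₀_ne_b).2
theorem d₀_mem_r₀ : β.d₀ ∈ β.r₀ := (HasLines.mkLine_ax β.d₀_ne_b).1
theorem b_mem_r₀ : S.b ∈ β.r₀ := (HasLines.mkLine_ax β.d₀_ne_b).2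

theorem s₀_ne_l₀ : β.s₀ ≠ S.l₀ := fun h => β.hp0 (h ▸ β.p₀_mem_s₀)
theorem s₀_ne_l₁ : β.s₀ ≠ S.l₁ := fun h => β.hp1 (h ▸ β.p₀_mem_s₀)
theorem r₁_ne_l₀ : β.r₁ ≠ S.l₀ := fun h => β.hp0 (h ▸ β.p₀_mem_r₁)
theorem r₁_ne_l₁ : β.r₁ ≠ S.l₁ := fun h => β.hp1 (h ▸ β.p₀_mem_r₁)
theorem d₀_notMem_l₀ : β.d₀ ∉ S.l₀ := fun h => β.d₀_ne_a (S.eq_a_of_mem h β.d₀_mem_l₁)
theorem c₀_notMem_l₁ : β.c₀ ∉ S.l₁ := fun h => β.c₀_ne_a (S.eq_a_of_mem β.c₀_mem_l₀ h)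
theorem r₀_ne_l₀ : β.r₀ ≠ S.l₀ := fun h => β.d₀_notMem_l₀ (h ▸ β.d₀_mem_r₀)
theorem r₀_ne_l₁ : β.r₀ ≠ S.l₁ := fun h => S.b_notMem (h ▸ β.b_mem_r₀)

/-- The stabiliser of the line `a p₀`. -/
def A : Subgroup G where
  carrier := {g | (S.ψ g) β.s₀ = β.s₀}
  one_mem' := by simp
  mul_mem' := by
    intro g h hg hh
    simp only [Set.mem_setOf_eq] at hg hh ⊢
    rw [map_mul, Equiv.Perm.mul_apply, hh, hg]
  inv_mem' := by
    intro g hg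
    simp only [Set.mem_setOf_eq] at hg ⊢
    rw [map_inv, Equiv.Perm.inv_eq_iff_eq, hg]

/-- The stabiliser of the line `b p₀`. -/
def B : Subgroup G where
  carrier := {g | (S.ψ g) β.r₁ = β.r₁}
  one_mem' := by simp
  mul_mem' := by
    intro g h hg hh
    simp only [Set.mem_setOf_eq] at hg hh ⊢
    rw [map_mul, Equiv.Perm.mul_apply, hh, hg]
  inv_mem' := by
    intro g hg
    simp only [Set.mem_setOf_eq] at hg ⊢
    rw [map_inv, Equiv.Perm.inv_eq_iff_eq, hg]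

/-- The difference set. -/
def D : Set G := {g | (S.φ g) β.p₀ ∈ β.m₀}

theorem mem_A {g : G} : g ∈ β.A ↔ (S.ψ g) β.s₀ = β.s₀ := Iff.rfl
theorem mem_B {g : G} : g ∈ β.B ↔ (S.ψ g) β.r₁ = β.r₁ := Iff.rfl
theorem mem_D {g : G} : g ∈ β.D ↔ (S.φ g) β.p₀ ∈ β.m₀ := Iff.rfl

theorem gp_notMem_l₀ (g : G) : (S.φ g) β.p₀ ∉ S.l₀ := by
  rw [S.mem_l₀_iff]; exact β.hp0

theorem gp_notMem_l₁ (g : G) : (S.φ g) β.p₀ ∉ S.l₁ := by
  rw [S.mem_l₁_iff]; exact β.hp1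

theorem gp_ne_a (g : G) : (S.φ g) β.p₀ ≠ S.a := fun h => β.gp_notMem_l₀ g (h ▸ S.ha0)
theorem gp_ne_b (g : G) : (S.φ g) β.p₀ ≠ S.b := fun h => β.gp_notMem_l₀ g (h ▸ S.hb0)

theorem mem_A_iff {g : G} : g ∈ β.A ↔ (S.φ g) β.p₀ ∈ β.s₀ := by
  rw [mem_A]
  constructor
  · intro h
    rw [← h]
    exact (S.inc g _ _).mp β.p₀_mem_s₀
  · intro h
    refine line_eq (β.gp_ne_a g) ?_ ?_ h β.a_mem_s₀
    · exact (S.inc g _ _).mp β.p₀_mem_s₀
    · exact (S.a_mem_iff g _).mpr β.a_mem_s₀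

theorem mem_B_iff {g : G} : g ∈ β.B ↔ (S.φ g) β.p₀ ∈ β.r₁ := by
  rw [mem_B]
  constructor
  · intro h
    rw [← h]
    exact (S.inc g _ _).mp β.p₀_mem_r₁
  · intro h
    refine line_eq (β.gp_ne_b g) ?_ ?_ h β.b_mem_r₁
    · exact (S.inc g _ _).mp β.p₀_mem_r₁
    · exact (S.b_mem_iff g _).mpr β.b_mem_r₁

theorem φ_inj {g h : G} (hgh : (S.φ g) β.p₀ = (S.φ h) β.p₀) : g = h :=
  (S.regP β.p₀ ((S.φ h) β.p₀) β.hp0 β.hp1 (β.gp_notMem_l₀ h) (β.gp_notMem_l₁ h)).unique hgh rfl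

theorem ψ_inj {g h : G} (hgh : (S.ψ g) β.m₀ = (S.ψ h) β.m₀) : g = h :=
  (S.regL β.m₀ ((S.ψ h) β.m₀) β.hma β.hmb (by rw [S.a_mem_iff]; exact β.hma)
    (by rw [S.b_mem_iff]; exact β.hmb)).unique hgh rfl

theorem exists_φ {p : P} (h0 : p ∉ S.l₀) (h1 : p ∉ S.l₁) : ∃ g, (S.φ g) β.p₀ = p :=
  (S.regP β.p₀ p β.hp0 β.hp1 h0 h1).exists

theorem exists_ψ {l : L} (ha : S.a ∉ l) (hb : S.b ∉ l) : ∃ g, (S.ψ g) β.m₀ = l :=
  (S.regL β.m₀ l β.hma β.hmb ha hb).exists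

/-- Number of points of a line with one point removed. -/
theorem card_minus_one (l : L) (p : P) (hp : p ∈ l) :
    Nat.card {q : P // q ∈ l ∧ q ≠ p} = order P L := by
  classical
  have h1 := pointCount_eq P l
  unfold pointCount at h1
  rw [Nat.card_eq_fintype_card] at h1 ⊢
  have h2 := Fintype.card_subtype_compl (fun q : {q : P // q ∈ l} => q = ⟨p, hp⟩)
  rw [Fintype.card_subtype_eq, h1] at h2
  rw [← Fintype.card_congr (Equiv.subtypeSubtypeEquivSubtypeInter (· ∈ l) (· ≠ p))]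
  have h3 : Fintype.card {x : {q : P // q ∈ l} // (x : P) ≠ p} =
      Fintype.card {x : {q : P // q ∈ l} // ¬ x = ⟨p, hp⟩} := by
    apply Fintype.card_congr
    apply Equiv.subtypeEquivRight
    intro x
    rw [not_iff_not, Subtype.ext_iff]
  omega

theorem card_minus_two (l : L) (p r : P) (hp : p ∈ l) (hr : r ∈ l) (hpr : p ≠ r) :
    Nat.card {q : P // q ∈ l ∧ q ≠ p ∧ q ≠ r} = order P L - 1 := by
  classical
  have h1 := card_minus_one l p hp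
  rw [Nat.card_eq_fintype_card] at h1 ⊢
  have h2 := Fintype.card_subtype_compl
    (fun q : {q : P // q ∈ l ∧ q ≠ p} => q = ⟨r, hr, hpr.symm⟩)
  rw [Fintype.card_subtype_eq, h1] at h2
  rw [← h2]
  apply Fintype.card_congr
  refine ⟨fun x => ⟨⟨x.1, x.2.1, x.2.2.1⟩, fun h => x.2.2.2 (by rw [Subtype.ext_iff] at h; exact h)⟩,
    fun x => ⟨x.1.1, x.1.2.1, x.1.2.2, fun h => x.2 (Subtype.ext h)⟩, fun x => rfl, fun x => rfl⟩

theorem card_A : Nat.card β.A = order P L := by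
  rw [← card_minus_one β.s₀ S.a β.a_mem_s₀]
  apply Nat.card_congr
  apply Equiv.ofBijective (f := fun g : β.A =>
    (⟨(S.φ (g : G)) β.p₀, β.mem_A_iff.mp g.2, β.gp_ne_a g⟩ : {q : P // q ∈ β.s₀ ∧ q ≠ S.a}))
  constructor
  · intro g h hgh
    rw [Subtype.ext_iff] at hgh
    exact Subtype.ext (β.φ_inj hgh)
  · rintro ⟨q, hq, hqa⟩
    obtain ⟨g, hg⟩ := β.exists_φ (S.notMem_l₀ β.a_mem_s₀ β.s₀_ne_l₀ hq hqa)
      (S.notMem_l₁ β.a_mem_s₀ β.s₀_ne_l₁ hq hqa)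
    exact ⟨⟨g, β.mem_A_iff.mpr (hg ▸ hq)⟩, Subtype.ext hg⟩

theorem card_B : Nat.card β.B = order P L - 1 := by
  obtain ⟨e, he, he1⟩ := exists_point' (P := P) β.r₁_ne_l₁
  have hbe : S.b ≠ e := fun h => S.b_notMem (h ▸ he1)
  rw [← card_minus_two β.r₁ S.b e β.b_mem_r₁ he hbe]
  apply Nat.card_congr
  apply Equiv.ofBijective (f := fun g : β.B =>
    (⟨(S.φ (g : G)) β.p₀, β.mem_B_iff.mp g.2, β.gp_ne_b g, fun h => β.gp_notMem_l₁ g (h ▸ he1)⟩ :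
      {q : P // q ∈ β.r₁ ∧ q ≠ S.b ∧ q ≠ e}))
  constructor
  · intro g h hgh
    rw [Subtype.ext_iff] at hgh
    exact Subtype.ext (β.φ_inj hgh)
  · rintro ⟨q, hq, hqb, hqe⟩
    obtain ⟨g, hg⟩ := β.exists_φ (S.notMem_l₀' β.b_mem_r₁ β.r₁_ne_l₀ hq hqb)
      (fun h => hqe (point_eq β.r₁_ne_l₁ hq he h he1))
    exact ⟨⟨g, β.mem_B_iff.mpr (hg ▸ hq)⟩, Subtype.ext hg⟩

end Base

theorem TypeF.card_G (S : TypeF P L G) : Nat.card G = order P L * (order P L - 1) := by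
  rw [Nat.card_eq_fintype_card]; exact S.card

/-- Two subgroups of order `n` of an abelian group of order `n * m`, `n` and `m` coprime,
coincide. -/
theorem subgroup_eq_of_card {n m : ℕ} (hG : Nat.card G = n * m) (hnm : Nat.Coprime n m)
    {H K : Subgroup G} (hH : Nat.card H = n) (hK : Nat.card K = n) : H = K := by
  have key : ∀ {H K : Subgroup G}, Nat.card H = n → Nat.card K = n → H ≤ K := by
    intro H K hH hK g hg
    have hn : 0 < n := by rw [← hH]; exact Nat.card_pos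
    have hidx : K.index = m := by
      have := K.card_mul_index
      rw [hK, hG] at this
      exact Nat.eq_of_mul_eq_mul_left hn this
    have h1 : ((g : G) : G ⧸ K) ^ n = 1 := by
      have : (⟨g, hg⟩ : H) ^ n = 1 := by rw [← hH]; exact pow_card_eq_one'
      have h2 : g ^ n = 1 := congrArg Subtype.val this
      rw [← QuotientGroup.mk_pow, h2, QuotientGroup.mk_one]
    have h2 : ((g : G) : G ⧸ K) ^ m = 1 := by
      rw [← hidx]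
      exact pow_card_eq_one'
    have h3 := orderOf_dvd_of_pow_eq_one h1
    have h4 := orderOf_dvd_of_pow_eq_one h2
    have h5 : orderOf ((g : G) : G ⧸ K) = 1 := Nat.eq_one_of_dvd_coprimes hnm h3 h4
    rw [orderOf_eq_one_iff, QuotientGroup.eq_one_iff] at h5
    exact h5
  exact le_antisymm (key hH hK) (key hK hH)

theorem coprime_order : Nat.Coprime (order P L) (order P L - 1) := by
  have := one_lt_order P L
  have h : order P L = (order P L - 1) + 1 := by omega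
  rw [h, Nat.add_sub_cancel]
  exact (Nat.coprime_self_add_left (m := order P L - 1) (n := 1)).mpr (Nat.coprime_one_left _)


namespace Base

variable {S : TypeF P L G} (β : Base S)

/-! ### The difference set property -/

theorem D_mul_mem {g h : G} : (S.φ g) β.p₀ ∈ (S.ψ h) β.m₀ ↔ g * h⁻¹ ∈ β.D := S.inc' g h _ _

theorem A_sup {g h : G} : (S.φ g) β.p₀ ∈ (S.ψ h) β.s₀ ↔ g * h⁻¹ ∈ β.A := by
  rw [mem_A_iff]; exact S.inc' g h _ _

/-- Every element outside `A ∪ B` is a unique quotient of elements of `D`. -/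
theorem existsUnique_quot {g : G} (hA : g ∉ β.A) (hB : g ∉ β.B) :
    ∃! q : G × G, q.1 ∈ β.D ∧ q.2 ∈ β.D ∧ q.1 * q.2⁻¹ = g := by
  have hne : β.p₀ ≠ (S.φ g) β.p₀ := by
    intro h
    apply hA
    rw [mem_A_iff, ← h]
    exact β.p₀_mem_s₀
  obtain ⟨l, hl1, hl2⟩ := exists_line (L := L) β.p₀ ((S.φ g) β.p₀)
  have hla : S.a ∉ l := by
    intro h
    apply hA
    rw [mem_A_iff]
    have : l = β.s₀ := line_eq β.p₀_ne_a hl1 h β.p₀_mem_s₀ β.a_mem_s₀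
    rwa [← this]
  have hlb : S.b ∉ l := by
    intro h
    apply hB
    rw [mem_B_iff]
    have : l = β.r₁ := line_eq β.p₀_ne_b hl1 h β.p₀_mem_r₁ β.b_mem_r₁
    rwa [← this]
  obtain ⟨h, hh⟩ := β.exists_ψ hla hlb
  have h1 : h⁻¹ ∈ β.D := by
    have h2 : (S.φ 1) β.p₀ ∈ (S.ψ h) β.m₀ := by rw [hh]; simpa using hl1
    have := β.D_mul_mem.mp h2
    rwa [one_mul] at this
  have h2 : g * h⁻¹ ∈ β.D := β.D_mul_mem.mp (by rw [hh]; exact hl2)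
  refine ⟨(g * h⁻¹, h⁻¹), ⟨h2, h1, by group⟩, ?_⟩
  rintro ⟨d, e⟩ ⟨hd, he, hde⟩
  simp only at hd he hde
  have he2 : e = h⁻¹ := by
    have h3 : (S.φ 1) β.p₀ ∈ (S.ψ e⁻¹) β.m₀ := β.D_mul_mem.mpr (by simpa using he)
    have h4 : (S.φ g) β.p₀ ∈ (S.ψ e⁻¹) β.m₀ := β.D_mul_mem.mpr (by
      rw [inv_inv, ← hde]; simpa using hd)
    have h3' : β.p₀ ∈ (S.ψ e⁻¹) β.m₀ := by simpa using h3
    have h5 : (S.ψ e⁻¹) β.m₀ = (S.ψ h) β.m₀ := by
      rw [hh]; exact line_eq hne h3' h4 hl1 hl2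
    have := β.ψ_inj h5
    rw [← this, inv_inv]
  rw [Prod.mk.injEq]
  refine ⟨?_, he2⟩
  rw [← hde, he2]
  group

/-- A nonidentity element of `A` is not a quotient of elements of `D`. -/
theorem not_quot_A {d e : G} (hd : d ∈ β.D) (he : e ∈ β.D) (h : d * e⁻¹ ∈ β.A) : d = e := by
  by_contra hne
  have h0 : d * e⁻¹ ≠ 1 := fun h => hne (mul_inv_eq_one.mp h)
  have h1 : β.p₀ ∈ (S.ψ e⁻¹) β.m₀ := by
    have : (S.φ 1) β.p₀ ∈ (S.ψ e⁻¹) β.m₀ := β.D_mul_mem.mpr (by simpa using he)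
    simpa using this
  have h2 : (S.φ (d * e⁻¹)) β.p₀ ∈ (S.ψ e⁻¹) β.m₀ := β.D_mul_mem.mpr (by simpa using hd)
  have h3 : β.p₀ ≠ (S.φ (d * e⁻¹)) β.p₀ := by
    intro h4
    apply h0
    apply β.φ_inj
    rw [← h4, map_one, Equiv.Perm.one_apply]
  have h5 : (S.ψ e⁻¹) β.m₀ = β.s₀ := line_eq h3 h1 h2 β.p₀_mem_s₀ (β.mem_A_iff.mp h)
  have h6 : S.a ∉ (S.ψ e⁻¹) β.m₀ := by rw [S.a_mem_iff]; exact β.hma
  exact h6 (h5 ▸ β.a_mem_s₀)

/-- A nonidentity element of `B` is not a quotient of elements of `D`. -/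
theorem not_quot_B {d e : G} (hd : d ∈ β.D) (he : e ∈ β.D) (h : d * e⁻¹ ∈ β.B) : d = e := by
  by_contra hne
  have h0 : d * e⁻¹ ≠ 1 := fun h => hne (mul_inv_eq_one.mp h)
  have h1 : β.p₀ ∈ (S.ψ e⁻¹) β.m₀ := by
    have : (S.φ 1) β.p₀ ∈ (S.ψ e⁻¹) β.m₀ := β.D_mul_mem.mpr (by simpa using he)
    simpa using this
  have h2 : (S.φ (d * e⁻¹)) β.p₀ ∈ (S.ψ e⁻¹) β.m₀ := β.D_mul_mem.mpr (by simpa using hd)
  have h3 : β.p₀ ≠ (S.φ (d * e⁻¹)) β.p₀ := by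
    intro h4
    apply h0
    apply β.φ_inj
    rw [← h4, map_one, Equiv.Perm.one_apply]
  have h5 : (S.ψ e⁻¹) β.m₀ = β.r₁ := line_eq h3 h1 h2 β.p₀_mem_r₁ (β.mem_B_iff.mp h)
  have h6 : S.b ∉ (S.ψ e⁻¹) β.m₀ := by rw [S.b_mem_iff]; exact β.hmb
  exact h6 (h5 ▸ β.b_mem_r₁)

/-- `D` has `n - 1` elements. -/
theorem card_D : Nat.card β.D = order P L - 1 := by
  have hcd : β.c₀ ≠ β.d₀ := fun h => β.c₀_notMem_l₁ (h ▸ β.d₀_mem_l₁)
  rw [← card_minus_two β.m₀ β.c₀ β.d₀ β.c₀_mem_m₀ β.d₀_mem_m₀ hcd]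
  apply Nat.card_congr
  apply Equiv.ofBijective (f := fun g : β.D =>
    (⟨(S.φ (g : G)) β.p₀, β.mem_D.mp g.2, fun h => β.gp_notMem_l₀ g (h ▸ β.c₀_mem_l₀),
      fun h => β.gp_notMem_l₁ g (h ▸ β.d₀_mem_l₁)⟩ :
      {q : P // q ∈ β.m₀ ∧ q ≠ β.c₀ ∧ q ≠ β.d₀}))
  constructor
  · intro g h hgh
    rw [Subtype.ext_iff] at hgh
    exact Subtype.ext (β.φ_inj hgh)
  · rintro ⟨q, hq, hqc, hqd⟩
    obtain ⟨g, hg⟩ := β.exists_φ (p := q)
      (fun h => hqc (point_eq β.m₀_ne_l₀ hq β.c₀_mem_m₀ h β.c₀_mem_l₀))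
      (fun h => hqd (point_eq β.m₀_ne_l₁ hq β.d₀_mem_m₀ h β.d₀_mem_l₁))
    exact ⟨⟨g, β.mem_D.mpr (hg ▸ hq)⟩, Subtype.ext hg⟩

/-! ### The points on `l₀` and `l₁`, the lines through `b` -/

/-- The stabiliser of a point. -/
def stabP (S : TypeF P L G) (p : P) : Subgroup G where
  carrier := {g | (S.φ g) p = p}
  one_mem' := by simp
  mul_mem' := by
    intro g h hg hh
    simp only [Set.mem_setOf_eq] at hg hh ⊢
    rw [map_mul, Equiv.Perm.mul_apply, hh, hg]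
  inv_mem' := by
    intro g hg
    simp only [Set.mem_setOf_eq] at hg ⊢
    rw [map_inv, Equiv.Perm.inv_eq_iff_eq, hg]

theorem gc_mem (g : G) : (S.φ g) β.c₀ ∈ S.l₀ := by rw [S.mem_l₀_iff]; exact β.c₀_mem_l₀
theorem gd_mem (g : G) : (S.φ g) β.d₀ ∈ S.l₁ := by rw [S.mem_l₁_iff]; exact β.d₀_mem_l₁

theorem gc_ne_a (g : G) : (S.φ g) β.c₀ ≠ S.a := by
  intro h
  have h2 : (S.φ g) β.c₀ = (S.φ g) S.a := by rw [h, (S.fix g).1]
  exact β.c₀_ne_a ((S.φ g).injective h2)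

theorem gc_ne_b (g : G) : (S.φ g) β.c₀ ≠ S.b := by
  intro h
  have h2 : (S.φ g) β.c₀ = (S.φ g) S.b := by rw [h, (S.fix g).2.1]
  exact β.c₀_ne_b ((S.φ g).injective h2)

theorem gd_ne_a (g : G) : (S.φ g) β.d₀ ≠ S.a := by
  intro h
  have h2 : (S.φ g) β.d₀ = (S.φ g) S.a := by rw [h, (S.fix g).1]
  exact β.d₀_ne_a ((S.φ g).injective h2)

theorem gc_mem_m₀_iff {g : G} : (S.φ g) β.c₀ ∈ β.m₀ ↔ g ∈ stabP S β.c₀ := by
  constructor
  · intro h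
    exact point_eq β.m₀_ne_l₀ h β.c₀_mem_m₀ (β.gc_mem g) β.c₀_mem_l₀
  · intro h
    have : (S.φ g) β.c₀ = β.c₀ := h
    rw [this]; exact β.c₀_mem_m₀

theorem gd_mem_m₀_iff {g : G} : (S.φ g) β.d₀ ∈ β.m₀ ↔ g ∈ stabP S β.d₀ := by
  constructor
  · intro h
    exact point_eq β.m₀_ne_l₁ h β.d₀_mem_m₀ (β.gd_mem g) β.d₀_mem_l₁
  · intro h
    have : (S.φ g) β.d₀ = β.d₀ := h
    rw [this]; exact β.d₀_mem_m₀

theorem gd_mem_r₀_iff {g : G} : (S.φ g) β.d₀ ∈ β.r₀ ↔ g ∈ stabP S β.d₀ := by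
  constructor
  · intro h
    exact point_eq β.r₀_ne_l₁ h β.d₀_mem_r₀ (β.gd_mem g) β.d₀_mem_l₁
  · intro h
    have : (S.φ g) β.d₀ = β.d₀ := h
    rw [this]; exact β.d₀_mem_r₀

/-- Number of lines through a point with one line removed. -/
theorem card_lines_minus_one (p : P) (l : L) (hp : p ∈ l) :
    Nat.card {m : L // p ∈ m ∧ m ≠ l} = order P L := by
  have h := card_minus_one (P := Dual L) (L := Dual P) p l hp
  rw [Dual.order] at h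
  exact h

theorem card_lines_minus_two (p : P) (l m : L) (hl : p ∈ l) (hm : p ∈ m) (hlm : l ≠ m) :
    Nat.card {k : L // p ∈ k ∧ k ≠ l ∧ k ≠ m} = order P L - 1 := by
  have h := card_minus_two (P := Dual L) (L := Dual P) p l m hl hm hlm
  rw [Dual.order] at h
  exact h

theorem mem_stabP_c₀ {g : G} : g ∈ stabP S β.c₀ ↔ β.c₀ ∈ (S.ψ g) β.m₀ := by
  have h := S.inc' 1 g β.c₀ β.m₀
  rw [map_one, Equiv.Perm.one_apply, one_mul, gc_mem_m₀_iff, inv_mem_iff] at h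
  exact h.symm

theorem mem_stabP_d₀ {g : G} : g ∈ stabP S β.d₀ ↔ β.d₀ ∈ (S.ψ g) β.m₀ := by
  have h := S.inc' 1 g β.d₀ β.m₀
  rw [map_one, Equiv.Perm.one_apply, one_mul, gd_mem_m₀_iff, inv_mem_iff] at h
  exact h.symm

theorem gm_a (g : G) : S.a ∉ (S.ψ g) β.m₀ := by rw [S.a_mem_iff]; exact β.hma
theorem gm_b (g : G) : S.b ∉ (S.ψ g) β.m₀ := by rw [S.b_mem_iff]; exact β.hmb

theorem card_stab_c₀ : Nat.card (stabP S β.c₀) = order P L := by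
  rw [← card_lines_minus_one β.c₀ S.l₀ β.c₀_mem_l₀]
  apply Nat.card_congr
  apply Equiv.ofBijective (f := fun g : stabP S β.c₀ =>
    (⟨(S.ψ (g : G)) β.m₀, β.mem_stabP_c₀.mp g.2, fun h => β.gm_a g (h ▸ S.ha0)⟩ :
      {m : L // β.c₀ ∈ m ∧ m ≠ S.l₀}))
  constructor
  · intro g h hgh
    rw [Subtype.ext_iff] at hgh
    exact Subtype.ext (β.ψ_inj hgh)
  · rintro ⟨l, hl, hl0⟩
    obtain ⟨g, hg⟩ := β.exists_ψ (l := l)
      (fun h => hl0 (line_eq β.c₀_ne_a hl h β.c₀_mem_l₀ S.ha0))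
      (fun h => hl0 (line_eq β.c₀_ne_b hl h β.c₀_mem_l₀ S.hb0))
    exact ⟨⟨g, β.mem_stabP_c₀.mpr (hg ▸ hl)⟩, Subtype.ext hg⟩

theorem card_stab_d₀ : Nat.card (stabP S β.d₀) = order P L - 1 := by
  rw [← card_lines_minus_two β.d₀ S.l₁ β.r₀ β.d₀_mem_l₁ β.d₀_mem_r₀ β.r₀_ne_l₁.symm]
  apply Nat.card_congr
  apply Equiv.ofBijective (f := fun g : stabP S β.d₀ =>
    (⟨(S.ψ (g : G)) β.m₀, β.mem_stabP_d₀.mp g.2, fun h => β.gm_a g (h ▸ S.ha1),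
      fun h => β.gm_b g (h ▸ β.b_mem_r₀)⟩ :
      {m : L // β.d₀ ∈ m ∧ m ≠ S.l₁ ∧ m ≠ β.r₀}))
  constructor
  · intro g h hgh
    rw [Subtype.ext_iff] at hgh
    exact Subtype.ext (β.ψ_inj hgh)
  · rintro ⟨l, hl, hl1, hlr⟩
    obtain ⟨g, hg⟩ := β.exists_ψ (l := l)
      (fun h => hl1 (line_eq β.d₀_ne_a hl h β.d₀_mem_l₁ S.ha1))
      (fun h => hlr (line_eq β.d₀_ne_b hl h β.d₀_mem_r₀ β.b_mem_r₀))
    exact ⟨⟨g, β.mem_stabP_d₀.mpr (hg ▸ hl)⟩, Subtype.ext hg⟩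

theorem stab_c₀ : stabP S β.c₀ = β.A :=
  subgroup_eq_of_card S.card_G coprime_order β.card_stab_c₀ β.card_A

theorem stab_d₀ : stabP S β.d₀ = β.B :=
  subgroup_eq_of_card (by rw [S.card_G, mul_comm]) coprime_order.symm β.card_stab_d₀ β.card_B

theorem c_mul_mem {g h : G} : (S.φ g) β.c₀ ∈ (S.ψ h) β.m₀ ↔ g * h⁻¹ ∈ β.A := by
  rw [S.inc', gc_mem_m₀_iff, stab_c₀]

theorem d_mul_mem {g h : G} : (S.φ g) β.d₀ ∈ (S.ψ h) β.m₀ ↔ g * h⁻¹ ∈ β.B := by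
  rw [S.inc', gd_mem_m₀_iff, stab_d₀]

theorem d_mul_mem_r {g h : G} : (S.φ g) β.d₀ ∈ (S.ψ h) β.r₀ ↔ g * h⁻¹ ∈ β.B := by
  rw [S.inc', gd_mem_r₀_iff, stab_d₀]

/-- Every point of `l₀` other than `a`, `b` is in the orbit of `c₀`. -/
theorem exists_gc {p : P} (hp : p ∈ S.l₀) (hpa : p ≠ S.a) (hpb : p ≠ S.b) :
    ∃ g, (S.φ g) β.c₀ = p := by
  obtain ⟨l, hl, hl0⟩ : ∃ l : L, p ∈ l ∧ l ≠ S.l₀ := by
    obtain ⟨l, hl⟩ := exists_line (L := L) p β.p₀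
    exact ⟨l, hl.1, fun h => β.hp0 (h ▸ hl.2)⟩
  obtain ⟨g, hg⟩ := β.exists_ψ (l := l)
    (fun h => hl0 (line_eq hpa hl h hp S.ha0))
    (fun h => hl0 (line_eq hpb hl h hp S.hb0))
  refine ⟨g, ?_⟩
  refine point_eq hl0 ?_ hl (β.gc_mem g) hp
  rw [← hg]
  exact (S.inc g _ _).mp β.c₀_mem_m₀

/-- Every point of `l₁` other than `a` is in the orbit of `d₀`. -/
theorem exists_gd {p : P} (hp : p ∈ S.l₁) (hpa : p ≠ S.a) :
    ∃ g, (S.φ g) β.d₀ = p := by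
  have hpb : p ≠ S.b := fun h => S.b_notMem (h ▸ hp)
  obtain ⟨r, hrp, hrb⟩ := exists_line (L := L) p S.b
  have hr1 : r ≠ S.l₁ := fun h => S.b_notMem (h ▸ hrb)
  -- a third line through `p`
  obtain ⟨l, hl, hl1, hlr⟩ : ∃ l : L, p ∈ l ∧ l ≠ S.l₁ ∧ l ≠ r :=
    exists_third (P := Dual L) (L := Dual P) p S.l₁ r
  obtain ⟨g, hg⟩ := β.exists_ψ (l := l)
    (fun h => hl1 (line_eq hpa hl h hp S.ha1))
    (fun h => hlr (line_eq hpb hl h hrp hrb))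
  refine ⟨g, ?_⟩
  refine point_eq hl1 ?_ hl (β.gd_mem g) hp
  rw [← hg]
  exact (S.inc g _ _).mp β.d₀_mem_m₀

/-- Every line through `a` other than `l₀`, `l₁` is in the orbit of `s₀`. -/
theorem exists_gs {l : L} (hl : S.a ∈ l) (hl0 : l ≠ S.l₀) (hl1 : l ≠ S.l₁) :
    ∃ g, (S.ψ g) β.s₀ = l := by
  obtain ⟨p, hp, hpa, _⟩ := exists_third l S.a S.a
  obtain ⟨g, hg⟩ := β.exists_φ (S.notMem_l₀ hl hl0 hp hpa) (S.notMem_l₁ hl hl1 hp hpa)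
  refine ⟨g, ?_⟩
  refine line_eq hpa ?_ ?_ hp hl
  · rw [← hg]; exact (S.inc g _ _).mp β.p₀_mem_s₀
  · rw [S.a_mem_iff]; exact β.a_mem_s₀

/-- Every line through `b` other than `l₀` is in the orbit of `r₀`. -/
theorem exists_gr {l : L} (hl : S.b ∈ l) (hl0 : l ≠ S.l₀) :
    ∃ g, (S.ψ g) β.r₀ = l := by
  have hl1 : l ≠ S.l₁ := fun h => S.b_notMem (h ▸ hl)
  obtain ⟨p, hp, hp1⟩ := exists_point' (P := P) hl1
  have hpa : p ≠ S.a := by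
    rintro rfl
    exact hl0 (line_eq S.hab hp hl S.ha0 S.hb0)
  have hpb : p ≠ S.b := fun h => S.b_notMem (h ▸ hp1)
  obtain ⟨g, hg⟩ := β.exists_gd hp1 hpa
  refine ⟨g, ?_⟩
  refine line_eq hpb ?_ ?_ hp hl
  · rw [← hg]; exact (S.inc g _ _).mp β.d₀_mem_r₀
  · rw [S.b_mem_iff]; exact β.b_mem_r₀

/-- The set of `g` with `φ g p₀ ∈ r₀` is a coset of `B`: membership of `g`, `h` in it is
equivalent when `g * h⁻¹ ∈ B`, and two members differ by an element of `B`. -/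
theorem r₀_coset {g h : G} (hg : (S.φ g) β.p₀ ∈ β.r₀) :
    (S.φ h) β.p₀ ∈ β.r₀ ↔ g * h⁻¹ ∈ β.B := by
  -- `B` is also the stabiliser of `r₀`
  have hstab : ∀ k : G, k ∈ β.B ↔ (S.ψ k) β.r₀ = β.r₀ := by
    intro k
    rw [← β.stab_d₀]
    constructor
    · intro hk
      have hk' : (S.φ k) β.d₀ = β.d₀ := hk
      refine line_eq β.d₀_ne_b ?_ ?_ β.d₀_mem_r₀ β.b_mem_r₀
      · have := (S.inc k _ _).mp β.d₀_mem_r₀
        rwa [hk'] at this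
      · rw [S.b_mem_iff]; exact β.b_mem_r₀
    · intro hk
      have h1 := (S.inc k _ _).mp β.d₀_mem_r₀
      rw [hk] at h1
      exact β.gd_mem_r₀_iff.mp h1
  rw [hstab]
  have h1 : (S.φ (g * h⁻¹)) ((S.φ h) β.p₀) = (S.φ g) β.p₀ := by
    rw [← Equiv.Perm.mul_apply, ← map_mul, inv_mul_cancel_right]
  constructor
  · intro hh
    refine line_eq (β.gp_ne_b g) ?_ ?_ hg β.b_mem_r₀
    · rw [← h1]
      exact (S.inc _ _ _).mp hh
    · rw [S.b_mem_iff]; exact β.b_mem_r₀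
  · intro hst
    rw [S.inc (g * h⁻¹), h1, hst]
    exact hg

/-- No element of `D` maps `p₀` to `r₀`. -/
theorem D_r₀ {g : G} (hg : g ∈ β.D) : (S.φ g) β.p₀ ∉ β.r₀ := by
  intro h
  have hne : (S.φ g) β.p₀ ≠ β.d₀ := fun h => β.gp_notMem_l₁ g (h ▸ β.d₀_mem_l₁)
  have := line_eq hne hg β.d₀_mem_m₀ h β.d₀_mem_r₀
  exact β.hmb (this ▸ β.b_mem_r₀)

end Base

end Pool.H72.TypeF
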