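import Pool.Agent.Lib.Helper72.TypeFGeom

/-!
# From the field model of the difference set to `PG(2, K)`
-/

namespace Pool.H72.TypeF

open Configuration Configuration.ProjectivePlane
open Matrix

variable {P L G : Type} [Fintype P] [Fintype L] [Membership P L]
    [Configuration.ProjectivePlane P L] [CommGroup G] [Fintype G]

namespace Base

variable {S : TypeF P L G} (β : Base S)

variable {K : Type} [Field K] [Fintype K]

/-- Homogeneous coordinates of points. -/
inductive RepP (θ : G ≃* Multiplicative K × Kˣ) : P → (Fin 3 → K) → Prop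
  | a : RepP θ S.a ![1, 0, 0]
  | b : RepP θ S.b ![0, 1, 0]
  | c (g : G) : RepP θ ((S.φ g) β.c₀) ![1, ((θ g).2 : K), 0]
  | d (g : G) : RepP θ ((S.φ g) β.d₀) ![Multiplicative.toAdd (θ g).1, 0, 1]
  | p (g : G) : RepP θ ((S.φ g) β.p₀) ![Multiplicative.toAdd (θ g).1, ((θ g).2 : K), 1]

/-- Homogeneous coordinates of lines. -/
inductive RepL (θ : G ≃* Multiplicative K × Kˣ) : L → (Fin 3 → K) → Prop
  | l₀ : RepL θ S.l₀ ![0, 0, 1]
  | l₁ : RepL θ S.l₁ ![0, 1, 0]
  | s (g : G) : RepL θ ((S.ψ g) β.s₀) ![0, 1, -((θ g).2 : K)]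
  | r (g : G) : RepL θ ((S.ψ g) β.r₀) ![1, 0, -(Multiplicative.toAdd (θ g).1)]
  | m (g : G) : RepL θ ((S.ψ g) β.m₀)
      ![((θ g).2 : K), -1, -(Multiplicative.toAdd (θ g).1 * ((θ g).2 : K))]

theorem exists_repP (θ : G ≃* Multiplicative K × Kˣ) (p : P) : ∃ v, β.RepP θ p v := by
  by_cases hpa : p = S.a
  · exact ⟨_, hpa ▸ RepP.a⟩
  by_cases hpb : p = S.b
  · exact ⟨_, hpb ▸ RepP.b⟩
  by_cases h0 : p ∈ S.l₀
  · obtain ⟨g, rfl⟩ := β.exists_gc h0 hpa hpb
    exact ⟨_, RepP.c g⟩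
  by_cases h1 : p ∈ S.l₁
  · obtain ⟨g, rfl⟩ := β.exists_gd h1 hpa
    exact ⟨_, RepP.d g⟩
  · obtain ⟨g, rfl⟩ := β.exists_φ h0 h1
    exact ⟨_, RepP.p g⟩

theorem exists_repL (θ : G ≃* Multiplicative K × Kˣ) (l : L) : ∃ v, β.RepL θ l v := by
  by_cases h0 : l = S.l₀
  · exact ⟨_, h0 ▸ RepL.l₀⟩
  by_cases h1 : l = S.l₁
  · exact ⟨_, h1 ▸ RepL.l₁⟩
  by_cases ha : S.a ∈ l
  · obtain ⟨g, rfl⟩ := β.exists_gs ha h0 h1
    exact ⟨_, RepL.s g⟩
  by_cases hb : S.b ∈ l
  · obtain ⟨g, rfl⟩ := β.exists_gr hb h0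
    exact ⟨_, RepL.r g⟩
  · obtain ⟨g, rfl⟩ := β.exists_ψ ha hb
    exact ⟨_, RepL.m g⟩

theorem repP_ne {θ : G ≃* Multiplicative K × Kˣ} {p : P} {v : Fin 3 → K} (h : β.RepP θ p v) :
    v ≠ 0 := by
  intro hv
  cases h with
  | a => exact one_ne_zero (congrFun hv 0)
  | b => exact one_ne_zero (congrFun hv 1)
  | c g => exact one_ne_zero (congrFun hv 0)
  | d g => exact one_ne_zero (congrFun hv 2)
  | p g => exact one_ne_zero (congrFun hv 2)

theorem repL_ne {θ : G ≃* Multiplicative K × Kˣ} {l : L} {v : Fin 3 → K} (h : β.RepL θ l v) :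
    v ≠ 0 := by
  intro hv
  cases h with
  | l₀ => exact one_ne_zero (congrFun hv 2)
  | l₁ => exact one_ne_zero (congrFun hv 1)
  | s g => exact one_ne_zero (congrFun hv 1)
  | r g => exact one_ne_zero (congrFun hv 0)
  | m g => exact neg_ne_zero.mpr one_ne_zero (congrFun hv 1)

theorem card_K (S : TypeF P L G) (θ : G ≃* Multiplicative K × Kˣ) :
    Fintype.card K = order P L := by
  classical
  have h1 : Nat.card G = Fintype.card K * (Fintype.card K - 1) := by
    rw [Nat.card_congr θ.toEquiv, Nat.card_prod, Nat.card_congr Multiplicative.toAdd,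
      Nat.card_eq_fintype_card, Nat.card_eq_fintype_card, Fintype.card_units]
  rw [S.card_G] at h1
  have h2 := one_lt_order P L
  have h3 : 1 < Fintype.card K := Fintype.one_lt_card
  rcases lt_trichotomy (Fintype.card K) (order P L) with h | h | h
  · exfalso
    have : Fintype.card K * (Fintype.card K - 1) < order P L * (order P L - 1) :=
      Nat.mul_lt_mul'' h (by omega)
    omega
  · exact h
  · exfalso
    have : order P L * (order P L - 1) < Fintype.card K * (Fintype.card K - 1) :=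
      Nat.mul_lt_mul'' h (by omega)
    omega

theorem mem_A_iff' (θ : G ≃* Multiplicative K × Kˣ) (g : G) : g ∈ β.A ↔ (θ g).2 = 1 := by
  have h : β.A = (MonoidHom.ker ((MonoidHom.snd _ _).comp θ.toMonoidHom)) := by
    apply subgroup_eq_of_card S.card_G coprime_order β.card_A
    rw [← card_K S θ, ← Nat.card_eq_fintype_card]
    apply Nat.card_congr
    refine ⟨fun g => Multiplicative.toAdd (θ (g : G)).1,
      fun x => ⟨θ.symm (Multiplicative.ofAdd x, 1), by
        show (θ (θ.symm (Multiplicative.ofAdd x, 1))).2 = 1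
        rw [MulEquiv.apply_symm_apply]⟩, ?_, ?_⟩
    · rintro ⟨g, hg⟩
      have hg' : (θ g).2 = 1 := hg
      apply Subtype.ext
      simp only [ofAdd_toAdd]
      rw [← hg']
      simp
    · intro x
      simp
  rw [h]
  exact Iff.rfl

theorem mem_B_iff' (θ : G ≃* Multiplicative K × Kˣ) (g : G) :
    g ∈ β.B ↔ Multiplicative.toAdd (θ g).1 = 0 := by
  classical
  have h : β.B = (MonoidHom.ker ((MonoidHom.fst _ _).comp θ.toMonoidHom)) := by
    apply subgroup_eq_of_card (by rw [S.card_G, mul_comm]) coprime_order.symm β.card_B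
    rw [← card_K S θ, ← Fintype.card_units, ← Nat.card_eq_fintype_card]
    apply Nat.card_congr
    refine ⟨fun g => (θ (g : G)).2,
      fun x => ⟨θ.symm (1, x), by
        show (θ (θ.symm (1, x))).1 = 1
        rw [MulEquiv.apply_symm_apply]⟩, ?_, ?_⟩
    · rintro ⟨g, hg⟩
      have hg' : (θ g).1 = 1 := hg
      apply Subtype.ext
      simp only
      rw [← hg']
      simp
    · intro x
      simp
  rw [h]
  exact Iff.rfl

theorem toAdd_mul_inv (θ : G ≃* Multiplicative K × Kˣ) (g h : G) :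
    Multiplicative.toAdd (θ (g * h⁻¹)).1 =
      Multiplicative.toAdd (θ g).1 - Multiplicative.toAdd (θ h).1 := by
  rw [map_mul, map_inv, Prod.fst_mul, Prod.fst_inv, toAdd_mul, toAdd_inv, sub_eq_add_neg]

theorem snd_mul_inv (θ : G ≃* Multiplicative K × Kˣ) (g h : G) :
    (θ (g * h⁻¹)).2 = (θ g).2 * ((θ h).2)⁻¹ := by
  rw [map_mul, map_inv, Prod.snd_mul, Prod.snd_inv]

theorem A_iff (θ : G ≃* Multiplicative K × Kˣ) (g h : G) :
    g * h⁻¹ ∈ β.A ↔ ((θ g).2 : K) = ((θ h).2 : K) := by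
  rw [β.mem_A_iff' θ, snd_mul_inv, mul_inv_eq_one, Units.ext_iff]

theorem B_iff (θ : G ≃* Multiplicative K × Kˣ) (g h : G) :
    g * h⁻¹ ∈ β.B ↔ Multiplicative.toAdd (θ g).1 = Multiplicative.toAdd (θ h).1 := by
  rw [β.mem_B_iff' θ, toAdd_mul_inv, sub_eq_zero]

/-- In the model, `φ g p₀ ∈ r₀` iff `g ∈ B`. -/
theorem r₀_iff (θ : G ≃* Multiplicative K × Kˣ)
    (hD : ∀ g, (S.φ g) β.p₀ ∈ β.m₀ ↔ Multiplicative.toAdd (θ g).1 = ((θ g).2 : K)) (g : G) :
    (S.φ g) β.p₀ ∈ β.r₀ ↔ Multiplicative.toAdd (θ g).1 = 0 := by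
  -- there is a point of `r₀` off `l₀`, `l₁`
  obtain ⟨q, hq, hqb, hqd⟩ := exists_third β.r₀ S.b β.d₀
  obtain ⟨h, hh⟩ := β.exists_φ (p := q) (S.notMem_l₀' β.b_mem_r₀ β.r₀_ne_l₀ hq hqb)
    (fun h => hqd (point_eq β.r₀_ne_l₁ hq β.d₀_mem_r₀ h β.d₀_mem_l₁))
  have hh' : (S.φ h) β.p₀ ∈ β.r₀ := hh ▸ hq
  have h0 : Multiplicative.toAdd (θ h).1 = 0 := by
    by_contra hne
    -- the element `(x, x)` of `D` with the same first coordinate
    let k : G := θ.symm ((θ h).1, Units.mk0 (Multiplicative.toAdd (θ h).1) hne)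
    have hk : θ k = ((θ h).1, Units.mk0 (Multiplicative.toAdd (θ h).1) hne) := by simp [k]
    have hkD : k ∈ β.D := by
      show (S.φ k) β.p₀ ∈ β.m₀
      rw [hD, hk]
      simp
    apply β.D_r₀ hkD
    rw [β.r₀_coset hh', β.B_iff θ, hk]
  rw [β.r₀_coset hh', β.B_iff θ, h0]
  exact eq_comm

theorem inc_iff (θ : G ≃* Multiplicative K × Kˣ)
    (hD : ∀ g, (S.φ g) β.p₀ ∈ β.m₀ ↔ Multiplicative.toAdd (θ g).1 = ((θ g).2 : K))
    {p : P} {l : L} {v w : Fin 3 → K} (hp : β.RepP θ p v) (hl : β.RepL θ l w) :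
    p ∈ l ↔ v ⬝ᵥ w = 0 := by
  have hu : ∀ g, ((θ g).2 : K) ≠ 0 := fun g => (θ g).2.ne_zero
  cases hp with
  | a =>
    cases hl with
    | l₀ => simp [S.ha0]
    | l₁ => simp [S.ha1]
    | s g => simp [S.a_mem_iff, β.a_mem_s₀]
    | r g =>
      have : S.a ∉ β.r₀ := fun h => β.r₀_ne_l₀ (line_eq S.hab h β.b_mem_r₀ S.ha0 S.hb0)
      simp [S.a_mem_iff, this]
    | m g => simp [S.a_mem_iff, β.hma]
  | b =>
    cases hl with
    | l₀ => simp [S.hb0]
    | l₁ => simp [S.b_notMem]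
    | s g =>
      have : S.b ∉ β.s₀ := fun h => β.s₀_ne_l₀ (line_eq S.hab β.a_mem_s₀ h S.ha0 S.hb0)
      simp [S.b_mem_iff, this]
    | r g => simp [S.b_mem_iff, β.b_mem_r₀]
    | m g => simp [S.b_mem_iff, β.hmb]
  | c g =>
    cases hl with
    | l₀ => simp [β.gc_mem]
    | l₁ =>
      have : (S.φ g) β.c₀ ∉ S.l₁ := by rw [S.mem_l₁_iff]; exact β.c₀_notMem_l₁
      simp [this]
    | s h =>
      have : (S.φ g) β.c₀ ∉ (S.ψ h) β.s₀ := by
        rw [S.inc']
        exact fun hc => β.gc_ne_a _ (point_eq β.s₀_ne_l₀ hc β.a_mem_s₀ (β.gc_mem _) S.ha0)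
      simp [this]
    | r h =>
      have : (S.φ g) β.c₀ ∉ (S.ψ h) β.r₀ := by
        rw [S.inc']
        exact fun hc => β.gc_ne_b _ (point_eq β.r₀_ne_l₀ hc β.b_mem_r₀ (β.gc_mem _) S.hb0)
      simp [this]
    | m h =>
      rw [β.c_mul_mem, β.A_iff θ]
      have e : ![(1 : K), ((θ g).2 : K), 0] ⬝ᵥ
          ![((θ h).2 : K), -1, -(Multiplicative.toAdd (θ h).1 * ((θ h).2 : K))] =
          ((θ h).2 : K) - ((θ g).2 : K) := by
        simp only [dotProduct, Fin.sum_univ_three]
        simp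
        ring
      rw [e, sub_eq_zero]
      exact eq_comm
  | d g =>
    cases hl with
    | l₀ =>
      have : (S.φ g) β.d₀ ∉ S.l₀ := by rw [S.mem_l₀_iff]; exact β.d₀_notMem_l₀
      simp [this]
    | l₁ => simp [β.gd_mem]
    | s h =>
      have : (S.φ g) β.d₀ ∉ (S.ψ h) β.s₀ := by
        rw [S.inc']
        exact fun hc => β.gd_ne_a _ (point_eq β.s₀_ne_l₁ hc β.a_mem_s₀ (β.gd_mem _) S.ha1)
      simp [this]
    | r h =>
      rw [β.d_mul_mem_r, β.B_iff θ]
      simp [sub_eq_zero, ← sub_eq_add_neg]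
    | m h =>
      rw [β.d_mul_mem, β.B_iff θ]
      have e : ![Multiplicative.toAdd (θ g).1, (0 : K), 1] ⬝ᵥ
          ![((θ h).2 : K), -1, -(Multiplicative.toAdd (θ h).1 * ((θ h).2 : K))] =
          (Multiplicative.toAdd (θ g).1 - Multiplicative.toAdd (θ h).1) * ((θ h).2 : K) := by
        simp only [dotProduct, Fin.sum_univ_three]
        simp
        ring
      rw [e, mul_eq_zero, sub_eq_zero]
      exact ⟨fun h => Or.inl h, fun hc => hc.resolve_right (hu h)⟩
  | p g =>
    cases hl with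
    | l₀ => simp [β.gp_notMem_l₀]
    | l₁ => simp [β.gp_notMem_l₁]
    | s h =>
      rw [β.A_sup, β.A_iff θ]
      simp [sub_eq_zero, ← sub_eq_add_neg]
    | r h =>
      rw [S.inc', β.r₀_iff θ hD, toAdd_mul_inv]
      simp [sub_eq_zero, ← sub_eq_add_neg]
    | m h =>
      rw [S.inc', hD, toAdd_mul_inv, snd_mul_inv]
      have e : ![Multiplicative.toAdd (θ g).1, ((θ g).2 : K), 1] ⬝ᵥ
          ![((θ h).2 : K), -1, -(Multiplicative.toAdd (θ h).1 * ((θ h).2 : K))] =
          (Multiplicative.toAdd (θ g).1 - Multiplicative.toAdd (θ h).1) * ((θ h).2 : K) -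
            ((θ g).2 : K) := by
        simp only [dotProduct, Fin.sum_univ_three]
        simp
        ring
      rw [e, sub_eq_zero, Units.val_mul, Units.val_inv_eq_inv_val]
      exact eq_mul_inv_iff_mul_eq₀ (hu h)

/-- If the difference set is `{(x, x)}` in `K⁺ × Kˣ` then the plane is `PG(2, K)`. -/
theorem exists_iso (θ : G ≃* Multiplicative K × Kˣ)
    (hD : ∀ g, (S.φ g) β.p₀ ∈ β.m₀ ↔ Multiplicative.toAdd (θ g).1 = ((θ g).2 : K)) :
    ∃ (e : P ≃ Projectivization K (Fin 3 → K)) (f : L ≃ Projectivization K (Fin 3 → K)),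
      ∀ (p : P) (l : L), p ∈ l ↔ dotProduct (e p).rep (f l).rep = 0 := by
  classical
  choose v hv using β.exists_repP (K := K) θ
  choose w hw using β.exists_repL (K := K) θ
  have hinc : ∀ p l, p ∈ l ↔ v p ⬝ᵥ w l = 0 := fun p l => β.inc_iff θ hD (hv p) (hw l)
  let e : P → Projectivization K (Fin 3 → K) := fun p => Projectivization.mk K (v p)
    (β.repP_ne (hv p))
  let f : L → Projectivization K (Fin 3 → K) := fun l => Projectivization.mk K (w l)
    (β.repL_ne (hw l))
  have hrep : ∀ p l, dotProduct (e p).rep (f l).rep = 0 ↔ p ∈ l := by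
    intro p l
    obtain ⟨x, hx⟩ := Projectivization.exists_smul_eq_mk_rep K (v p) (β.repP_ne (hv p))
    obtain ⟨y, hy⟩ := Projectivization.exists_smul_eq_mk_rep K (w l) (β.repL_ne (hw l))
    rw [hinc]
    show dotProduct (Projectivization.mk K (v p) _).rep (Projectivization.mk K (w l) _).rep = 0 ↔ _
    rw [← hx, ← hy]
    simp only [Units.smul_def, smul_dotProduct, dotProduct_smul, smul_eq_mul]
    constructor
    · intro h
      rcases mul_eq_zero.mp h with h | h
      · exact absurd h y.ne_zero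
      · rcases mul_eq_zero.mp h with h | h
        · exact absurd h x.ne_zero
        · exact h
    · intro h
      rw [h, mul_zero, mul_zero]
  have he : Function.Injective e := by
    intro p q hpq
    by_contra hne
    have h1 : ∀ l : L, p ∈ l ↔ q ∈ l := by
      intro l
      rw [← hrep p l, ← hrep q l, hpq]
    -- a line through `p` not through `q`
    obtain ⟨l, hl⟩ := exists_line (L := L) p q
    obtain ⟨m, hm, hml⟩ : ∃ m : L, p ∈ m ∧ m ≠ l := by
      obtain ⟨m, hm, hml, _⟩ := exists_third (P := Dual L) (L := Dual P) p l l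
      exact ⟨m, hm, hml⟩
    exact hml (line_eq hne hm ((h1 m).mp hm) hl.1 hl.2)
  have hf : Function.Injective f := by
    intro l m hlm
    by_contra hne
    have h1 : ∀ p : P, p ∈ l ↔ p ∈ m := by
      intro p
      rw [← hrep p l, ← hrep p m, hlm]
    obtain ⟨p, hp⟩ := exists_point' (P := P) hne
    obtain ⟨q, hq, hqp, _⟩ := exists_third l p p
    exact hne (line_eq hqp hq hp.1 ((h1 q).mp hq) hp.2)
  have hcard : Nat.card (Projectivization K (Fin 3 → K)) = order P L ^ 2 + order P L + 1 := by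
    rw [Projectivization.card_of_finrank K (Fin 3 → K) (n := 3) (by simp)]
    rw [Nat.card_eq_fintype_card, card_K S θ]
    simp [Finset.sum_range_succ]
    ring
  have hfin : Finite (Projectivization K (Fin 3 → K)) := inferInstance
  have hfint : Fintype (Projectivization K (Fin 3 → K)) := Fintype.ofFinite _
  have hcardP : Fintype.card P = Fintype.card (Projectivization K (Fin 3 → K)) := by
    rw [card_points P L, ← hcard, Nat.card_eq_fintype_card]
  have hcardL : Fintype.card L = Fintype.card (Projectivization K (Fin 3 → K)) := by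
    rw [card_lines P L, ← hcard, Nat.card_eq_fintype_card]
  have he' : Function.Bijective e := (Fintype.bijective_iff_injective_and_card e).mpr ⟨he, hcardP⟩
  have hf' : Function.Bijective f := (Fintype.bijective_iff_injective_and_card f).mpr ⟨hf, hcardL⟩
  exact ⟨Equiv.ofBijective e he', Equiv.ofBijective f hf', fun p l => (hrep p l).symm⟩

end Base

end Pool.H72.TypeF
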